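import Pool.Agent.Helper38.IA.StN

/-!
# Project IA, part N: module NBD (the nine bad events have small probability)
-/

set_option autoImplicit false

namespace Pool.Agent.Helper2.IA38

open Finset Pool.Agent.Helper93.IA Pool.Agent.Helper17.IAN Pool.Agent.Helper38.IA

section

variable {α β γ : Type} [Fintype α] [Fintype β] [Fintype γ] [DecidableEq α] [DecidableEq β]
  [DecidableEq γ]

omit [Fintype α] [Fintype β] [DecidableEq α] [DecidableEq β] [DecidableEq γ] in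
private theorem wt_nn (x : α → β → γ → ℝ) (h0 : ∀ a b c, 0 ≤ x a b c)
    (h1 : ∀ a b, ∑ c, x a b c ≤ 1) (e : α × β) (u : Option γ) : 0 ≤ wt x e u := by
  cases u with
  | none =>
    have := h1 e.1 e.2
    simp only [wt]
    linarith
  | some c => exact h0 e.1 e.2 c

private theorem pr_mono (x : α → β → γ → ℝ) (h0 : ∀ a b c, 0 ≤ x a b c)
    (h1 : ∀ a b, ∑ c, x a b c ≤ 1) (P Q : (α × β → Option γ) → Prop)
    (h : ∀ σ, P σ → Q σ) : Pr x P ≤ Pr x Q := by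
  classical
  unfold Pr Ex
  refine Finset.sum_le_sum fun σ _ => ?_
  refine mul_le_mul_of_nonneg_left ?_ (Finset.prod_nonneg fun e _ => wt_nn x h0 h1 e _)
  show (if P σ then (1 : ℝ) else 0) ≤ (if Q σ then 1 else 0)
  by_cases hP : P σ
  · rw [if_pos hP, if_pos (h σ hP)]
  · rw [if_neg hP]
    split_ifs <;> norm_num

/-- The tail bound used below. -/
private def Tail (α β γ : Type) [Fintype α] [Fintype β] [Fintype γ] [DecidableEq α]
    [DecidableEq β] [DecidableEq γ] (n : ℕ) (x : α → β → γ → ℝ) (ζ p : ℝ) : Prop :=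
  ∀ (I : Type) [Fintype I] (E : I → (α × β → Option γ) → Prop) (g : I → ℝ) (m κ : ℝ),
    Loc n E → (∀ i, 0 ≤ g i ∧ g i ≤ 1) → (∀ i, g i ≠ 0 → |Pr x (E i) - m| ≤ κ) →
      Pr x (fun σ => ¬ |Fv E g σ - m * ∑ i, g i| ≤ κ * ∑ i, g i + ζ * n) ≤ p

private theorem Fv_smul {I Ω : Type} [Fintype I] (E : I → Ω → Prop) (g : I → ℝ) (s : ℝ)
    (σ : Ω) : Fv E (fun i => s * g i) σ = s * Fv E g σ := by
  classical
  unfold Fv
  rw [Finset.mul_sum]
  refine Finset.sum_congr rfl fun i _ => ?_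
  split_ifs
  · rfl
  · rw [mul_zero]

/-- edge sums -/
private theorem edge {n : ℕ} {x : α → β → γ → ℝ} {Λ η p : ℝ} (hn : 0 < n) (hΛ : 1 ≤ Λ)
    (h0 : ∀ a b c, 0 ≤ x a b c) (h1 : ∀ a b, ∑ c, x a b c ≤ 1)
    (hT : Tail α β γ n x (η / Λ) p) {I : Type} [Fintype I]
    (E : I → (α × β → Option γ) → Prop) (g : I → ℝ) (m κ : ℝ) (hE : Loc n E)
    (hg : ∀ i, 0 ≤ g i ∧ g i ≤ Λ / n) (hm : ∀ i, g i ≠ 0 → |Pr x (E i) - m| ≤ κ) :
    Pr x (fun σ => ¬ |Fv E g σ - m * ∑ i, g i| ≤ κ * ∑ i, g i + η) ≤ p := by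
  have hn' : (0 : ℝ) < n := by exact_mod_cast hn
  have hΛ' : 0 < Λ := by linarith
  have hs : 0 < (n : ℝ) / Λ := by positivity
  have h := hT I E (fun i => (n : ℝ) / Λ * g i) m κ hE ?_ ?_
  · refine (pr_mono x h0 h1 _ _ ?_).trans h
    intro σ hσ hc
    apply hσ
    rw [Fv_smul, ← Finset.mul_sum] at hc
    have e1 : (n : ℝ) / Λ * Fv E g σ - m * ((n : ℝ) / Λ * ∑ i, g i) =
        (n : ℝ) / Λ * (Fv E g σ - m * ∑ i, g i) := by ring
    have e2 : κ * ((n : ℝ) / Λ * ∑ i, g i) + η / Λ * n =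
        (n : ℝ) / Λ * (κ * ∑ i, g i + η) := by ring
    rw [e1, e2, abs_mul, abs_of_pos hs] at hc
    exact le_of_mul_le_mul_left hc hs
  · intro i
    refine ⟨mul_nonneg hs.le (hg i).1, ?_⟩
    have := mul_le_mul_of_nonneg_left (hg i).2 hs.le
    have e : (n : ℝ) / Λ * (Λ / n) = 1 := by field_simp
    rw [e] at this
    exact this
  · intro i hi
    exact hm i fun h => hi (by rw [h, mul_zero])

/-- degrees -/
private theorem deg {n : ℕ} {x : α → β → γ → ℝ} {Λ η p : ℝ} (hΛ : 1 ≤ Λ) (hη : 0 < η)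
    (h0 : ∀ a b c, 0 ≤ x a b c) (h1 : ∀ a b, ∑ c, x a b c ≤ 1)
    (hT : Tail α β γ n x (η / Λ) p) {I : Type} [Fintype I]
    (E : I → (α × β → Option γ) → Prop) (P : I → Prop) [DecidablePred P] (m κ D : ℝ)
    (hD : D = ∑ i, if P i then (1 : ℝ) else 0) (hE : Loc n E)
    (hm : ∀ i, P i → |Pr x (E i) - m| ≤ κ) :
    Pr x (fun σ => ¬ Fv E (fun i => if P i then 1 else 0) σ ≤ (m + κ) * D + η * n) ≤ p := by
  have h := hT I E (fun i => if P i then 1 else 0) m κ hE ?_ ?_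
  · refine (pr_mono x h0 h1 _ _ ?_).trans h
    intro σ hσ hc
    apply hσ
    rw [← hD] at hc
    have h2 := (abs_le.mp hc).2
    have h3 : η / Λ * n ≤ η * n :=
      mul_le_mul_of_nonneg_right (div_le_self hη.le hΛ) (Nat.cast_nonneg n)
    linarith
  · intro i
    split_ifs <;> norm_num
  · intro i hi
    refine hm i ?_
    by_contra hP
    exact hi (if_neg hP)

private theorem ne_of_sum {I : Type} [Fintype I] (f : I → ℝ) (δ : ℝ) (hδ : δ ≤ 1 / 2)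
    (h : 1 - δ ≤ ∑ i, f i) : ∃ i, f i ≠ 0 := by
  by_contra hc
  push Not at hc
  rw [Finset.sum_eq_zero fun i _ => hc i] at h
  linarith

end

theorem hNBD : StMEAN → StNLA → StNLB → StNLC → StNTW → StNBD := by
  intro hM hA hB hC hT
  obtain ⟨K0, hK0, hM⟩ := hM
  refine ⟨max K0 1, le_max_right _ _, ?_⟩
  intro Λ η hΛ hη
  obtain ⟨c, hc, hT⟩ := hT Λ (η / Λ) hΛ (by positivity)
  refine ⟨c, max 1 ⌈4 * Λ⌉₊, hc, ?_⟩
  intro α β γ _ _ _ _ _ _ n δ x A B C hn0 hδ0 hδ1 hR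
  have hn : 0 < n := lt_of_lt_of_le Nat.one_pos ((le_max_left _ _).trans hn0)
  have hn4 : Λ ≤ (n : ℝ) / 4 := by
    have h1 : (⌈4 * Λ⌉₊ : ℝ) ≤ n := by exact_mod_cast (le_max_right _ _).trans hn0
    have h2 := Nat.le_ceil (4 * Λ)
    linarith
  have hD := hR.dat
  have hTail : Tail α β γ n x (η / Λ) (2 * Real.exp (-(c * n))) := by
    intro I _ E g m κ hE hg hp
    exact hT α β γ I n δ x hn hD E g m κ hE hg hp
  have hK : K0 * (δ + Λ / n) ≤ max K0 1 * (δ + Λ / n) :=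
    mul_le_mul_of_nonneg_right (le_max_left _ _) (by positivity)
  have hMM := hM α β γ n Λ δ x hΛ hδ0 hn4 hD
  obtain ⟨lA1, lA2, lA3⟩ := hA α β γ n hD.nα hD.nβ
  obtain ⟨lB1, lB2, lB3⟩ := hB α β γ n hD.nα hD.nβ
  obtain ⟨lC1, lC2, lC3⟩ := hC α β γ n hD.nα hD.nβ
  refine ⟨fun a b => ?_, fun b c => ?_, fun c a => ?_, fun a => ?_, fun b => ?_, fun b => ?_,
    fun c => ?_, fun c => ?_, fun a => ?_⟩
  · exact edge hn hΛ hD.x0 hD.uA hTail _ _ _ _ (lA1 a b)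
      (fun c => ⟨hD.x0 a b c, hD.x1 a b c⟩)
      (fun c h => ((hMM a b c h).2.2.2.1).trans hK)
  · exact edge hn hΛ hD.x0 hD.uA hTail _ _ _ _ (lA2 b c)
      (fun a => ⟨hD.x0 a b c, hD.x1 a b c⟩)
      (fun a h => ((hMM a b c h).2.2.2.2.1).trans hK)
  · exact edge hn hΛ hD.x0 hD.uA hTail _ _ _ _ (lA3 c a)
      (fun b => ⟨hD.x0 a b c, hD.x1 a b c⟩)
      (fun b h => ((hMM a b c h).2.2.2.2.2).trans hK)
  · refine deg hΛ hη hD.x0 hD.uA hTail _ (fun b => (a, b) ∈ A) _ _ _ (d1_eq_sum A a) (lB1 a) ?_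
    intro b hb
    obtain ⟨c, hc⟩ := ne_of_sum _ δ hδ1 (hR.lA a b hb)
    exact ((hMM a b c hc).1).trans hK
  · refine deg hΛ hη hD.x0 hD.uA hTail _ (fun a => (a, b) ∈ A) _ _ _ (d2_eq_sum A b) (lB2 b) ?_
    intro a hb
    obtain ⟨c, hc⟩ := ne_of_sum _ δ hδ1 (hR.lA a b hb)
    exact ((hMM a b c hc).1).trans hK
  · refine deg hΛ hη hD.x0 hD.uA hTail _ (fun c => (b, c) ∈ B) _ _ _ (d1_eq_sum B b) (lB3 b) ?_
    intro c hb
    obtain ⟨a, ha⟩ := ne_of_sum _ δ hδ1 (hR.lB b c hb)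
    exact ((hMM a b c ha).2.1).trans hK
  · refine deg hΛ hη hD.x0 hD.uA hTail _ (fun b => (b, c) ∈ B) _ _ _ (d2_eq_sum B c) (lC1 c) ?_
    intro b hb
    obtain ⟨a, ha⟩ := ne_of_sum _ δ hδ1 (hR.lB b c hb)
    exact ((hMM a b c ha).2.1).trans hK
  · refine deg hΛ hη hD.x0 hD.uA hTail _ (fun a => (c, a) ∈ C) _ _ _ (d1_eq_sum C c) (lC2 c) ?_
    intro a hb
    obtain ⟨b, hb'⟩ := ne_of_sum _ δ hδ1 (hR.lC c a hb)
    exact ((hMM a b c hb').2.2.1).trans hK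
  · refine deg hΛ hη hD.x0 hD.uA hTail _ (fun c => (c, a) ∈ C) _ _ _ (d2_eq_sum C a) (lC3 a) ?_
    intro c hb
    obtain ⟨b, hb'⟩ := ne_of_sum _ δ hδ1 (hR.lC c a hb)
    exact ((hMM a b c hb').2.2.1).trans hK

end Pool.Agent.Helper2.IA38
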