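import Pool.Agent.Helper38.IA.StN

/-!
# Project IA, part N: module NTW (two-sided tail for a local family)
-/

set_option autoImplicit false

namespace Pool.Agent.Helper2.IA38

open Finset Pool.Agent.Helper93.IA Pool.Agent.Helper17.IAN Pool.Agent.Helper38.IA

variable {α β γ : Type} [Fintype α] [Fintype β] [Fintype γ] [DecidableEq α] [DecidableEq β]
  [DecidableEq γ]

omit [Fintype α] [Fintype β] [DecidableEq α] [DecidableEq β] [DecidableEq γ] in
private theorem wt_nn (x : α → β → γ → ℝ) (h0 : ∀ a b c, 0 ≤ x a b c)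
    (h1 : ∀ a b, ∑ c, x a b c ≤ 1) (e : α × β) (u : Option γ) : 0 ≤ wt x e u := by
  cases u with
  | none =>
    have := h1 e.1 e.2
    simp only [wt]
    linarith
  | some c => exact h0 e.1 e.2 c

private theorem pr_or2 (x : α → β → γ → ℝ) (h0 : ∀ a b c, 0 ≤ x a b c)
    (h1 : ∀ a b, ∑ c, x a b c ≤ 1) (P Q R : (α × β → Option γ) → Prop)
    (h : ∀ σ, P σ → Q σ ∨ R σ) : Pr x P ≤ Pr x Q + Pr x R := by
  classical
  unfold Pr Ex
  rw [← Finset.sum_add_distrib]
  refine Finset.sum_le_sum fun σ _ => ?_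
  rw [← mul_add]
  refine mul_le_mul_of_nonneg_left ?_ (Finset.prod_nonneg fun e _ => wt_nn x h0 h1 e _)
  show (if P σ then (1 : ℝ) else 0) ≤ (if Q σ then 1 else 0) + (if R σ then 1 else 0)
  by_cases hP : P σ
  · rcases h σ hP with hQ | hR
    · rw [if_pos hP, if_pos hQ]
      split_ifs <;> norm_num
    · rw [if_pos hP, if_pos hR]
      split_ifs <;> norm_num
  · rw [if_neg hP]
    split_ifs <;> norm_num

private theorem ex_neg' (x : α → β → γ → ℝ) (f : (α × β → Option γ) → ℝ) :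
    Ex (wt x) (fun σ => - f σ) = - Ex (wt x) f := by
  unfold Ex
  simp only [mul_neg, Finset.sum_neg_distrib]

theorem hNTW : StNSM → StNTL → StNMF → StNTW := by
  intro hS hL hM Λ η hΛ hη
  obtain ⟨c, hc, hT⟩ := hL Λ η hΛ hη
  refine ⟨c, hc, ?_⟩
  intro α β γ I _ _ _ _ _ _ _ n δ x hn hD E g m κ hE hg hp
  obtain ⟨s1, s2⟩ := hS α β γ I n E g hE hg
  have t1 := hT α β γ n δ x hn hD (Fv E g) s1
  have t2 := hT α β γ n δ x hn hD (fun σ => - Fv E g σ) s2
  have hm := hM α β γ I x E g m κ (fun i => (hg i).1) hp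
  rw [ex_neg'] at t2
  rw [abs_le] at hm
  refine (pr_or2 x hD.x0 hD.uA _ _ _ ?_).trans ((add_le_add t1 t2).trans (le_of_eq (by ring)))
  intro σ hσ
  rw [abs_le, not_and_or, not_le, not_le] at hσ
  rcases hσ with h | h
  · right
    linarith [hm.1]
  · left
    linarith [hm.2]

end Pool.Agent.Helper2.IA38
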